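import Pool.Agent.MP_887f27_pr.H91.Law

/-! From dense plus cores in the canonical model to the statement of the problem. -/

namespace Pool.Agent.MP_887f27_pr.H91

open MeasureTheory ProbabilityTheory Set Filter
open scoped ENNReal
open Pool.Agent.MP_887f27_pr.H69

/-- Spin value of a Boolean. -/
def sg (b : Bool) : ℝ := if b then 1 else -1

lemma sg_dec {x : ℝ} (h : x = 1 ∨ x = -1) : x = sg (decide (x = 1)) := by
  rcases h with h | h
  · simp [sg, h]
  · subst h
    norm_num [sg]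

lemma rC_cases (c : Bool) (y : Dir → Bool) : rC (0, c) y =
    if 3 ≤ (y (0, true)).toNat + (y (0, false)).toNat + ((y (1, true)).toNat + (y (1, false)).toNat)
      then true
    else if (y (0, true)).toNat + (y (0, false)).toNat +
      ((y (1, true)).toNat + (y (1, false)).toNat) ≤ 1 then false else c := by
  revert c y
  unfold rC
  decide +kernel

lemma rule_eq (c : Bool) (y : Dir → Bool) :
    (if 0 < ∑ i : Fin 2, (sg (y (i, true)) + sg (y (i, false))) then (1 : ℝ)
      else if ∑ i : Fin 2, (sg (y (i, true)) + sg (y (i, false))) < 0 then -1 else sg c) =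
      sg (rC (0, c) y) := by
  rw [rC_cases, Fin.sum_univ_two]
  generalize y (0, true) = a
  generalize y (0, false) = b
  generalize y (1, true) = a'
  generalize y (1, false) = b'
  cases a <;> cases b <;> cases a' <;> cases b' <;> norm_num [sg]

lemma val_red (w : Om) : ∀ D v t, val rC (redOm w) D v t = val rC w D v t
  | 0, _, _ => rfl
  | D + 1, v, t => by
    simp only [val, val_red w D]
    rfl

lemma cfgI_red (w : Om) (t : ℝ) : cfgI rC t (redOm w) = cfgI rC t w := by
  funext v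
  unfold cfgI valI
  congr 1
  exact propext (exists_congr fun D => and_congr Iff.rfl (by rw [val_red]))

/-- The recursion of the problem for one sample. -/
def Rec (ξ : Clk) (x : V → ℝ) (c : V × ℕ → ℝ) (σ : V → ℝ → ℝ) : Prop :=
  ∀ v, (∀ t : ℝ, 0 ≤ t → t < tm (ξ v) 0 → σ v t = x v) ∧
    (∀ (n : ℕ) (t : ℝ), tm (ξ v) n ≤ t → t < tm (ξ v) (n + 1) →
      σ v t =
        (if 0 < ∑ i : Fin 2, (σ (v * FreeGroup.of i) (tm (ξ v) n)
                            + σ (v * (FreeGroup.of i)⁻¹) (tm (ξ v) n)) then 1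
         else if ∑ i : Fin 2, (σ (v * FreeGroup.of i) (tm (ξ v) n)
                            + σ (v * (FreeGroup.of i)⁻¹) (tm (ξ v) n)) < 0 then -1
         else c (v, n)))

/-- The canonical sample attached to real data. -/
noncomputable def mk (ξ : Clk) (x : V → ℝ) (c : V × ℕ → ℝ) : Om :=
  ((ξ, fun i => (0, decide (c i = 1))), fun v => decide (x v = 1))

lemma sigma_eq {ξ : Clk} {x : V → ℝ} {c : V × ℕ → ℝ} {σ : V → ℝ → ℝ} (hG : Good ξ)
    (hx : ∀ v, x v = 1 ∨ x v = -1) (hc : ∀ i, c i = 1 ∨ c i = -1) (hR : Rec ξ x c σ) :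
    ∀ D v t, Ok ξ D v t → 0 ≤ t → (∀ n, t ≠ tm (ξ v) n) →
      σ v t = sg (val rC (mk ξ x c) D v t)
  | 0, _, _, h, _, _ => h.elim
  | D + 1, v, t, h, ht, hn => by
    have h1 : t < tm (ξ v) (cnt (ξ v) t) := lt_of_le_of_ne (le_tm_cnt (hG.2.1 v t)) (hn _)
    have e : (mk ξ x c).1.1 = ξ := rfl
    simp only [val, e]
    split_ifs with h0
    · rw [h0] at h1
      rw [(hR v).1 t ht h1]
      exact sg_dec (hx v)
    · have h2 := tm_pred_lt h0
      have h3 := h.resolve_left h0
      obtain ⟨n, hn'⟩ : ∃ n, cnt (ξ v) t = n + 1 := Nat.exists_eq_succ_of_ne_zero h0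
      rw [hn'] at h1 h2 h3 ⊢
      simp only [Nat.add_sub_cancel] at h2 h3 ⊢
      have ih : ∀ d, σ (v * g d) (tm (ξ v) n) =
          sg (val rC (mk ξ x c) D (v * g d) (tm (ξ v) n)) := fun d =>
        sigma_eq hG hx hc hR D _ _ (h3 d) (tm_pos (hG.1 v) n).le
          fun m => hG.2.2.1 v (v * g d) n m (mul_g_ne v d).symm
      rw [(hR v).2 n t h2.le h1]
      simp only [← g_true]
      have e2 : ∀ i : Fin 2, (g (i, true))⁻¹ = g (i, false) := fun i => (g_false i).symm
      simp only [e2, ih]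
      rw [sg_dec (hc (v, n))]
      have := rule_eq (decide (c (v, n) = 1))
        (fun d => val rC (mk ξ x c) D (v * g d) (tm (ξ v) n))
      exact this

/-- The core of a set. -/
def CoreI (K : Set V) : Set V := {u | ∀ R, u ∈ Core K R}

lemma coreI_three {K : Set V} {u : V} (h : u ∈ CoreI K) : Three fun d => u * g d ∈ CoreI K := by
  by_contra hc
  obtain ⟨a, b, hab, ha, hb⟩ := not_three hc
  simp only [CoreI, mem_ofPred_eq, not_forall] at ha hb
  obtain ⟨R, hR⟩ := ha
  obtain ⟨R', hR'⟩ := hb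
  exact (h (max R R' + 1)).2.not_two_fail hab
    (fun e => hR (core_anti K (le_max_left _ _) e)) (fun e => hR' (core_anti K (le_max_right _ _) e))

lemma persist {w : Om} (hG : Good w.1.1) {k : ℝ} : ∀ D u t,
    u ∈ CoreI (sgn true (cfgI rC k w)) → k ≤ t → Ok w.1.1 D u t → val rC w D u t = true
  | 0, _, _, _, _, h => h.elim
  | D + 1, u, t, hu, ht, h => by
    by_cases e : cnt (w.1.1 u) t = cnt (w.1.1 u) k
    · rw [← valI_eq rC w h, valI_congr_cnt rC w e]
      exact hu 0
    · have h1 : cnt (w.1.1 u) k < cnt (w.1.1 u) t :=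
        lt_of_le_of_ne (cnt_mono (hG.2.1 u t) ht) (Ne.symm e)
      have h0 : cnt (w.1.1 u) t ≠ 0 := by omega
      have h2 : k ≤ tm (w.1.1 u) (cnt (w.1.1 u) t - 1) :=
        (le_tm_cnt (hG.2.1 u k)).trans ((tm_strictMono (hG.1 u)).monotone (by omega))
      have h3 := h.resolve_left h0
      simp only [val, h0, if_false]
      exact rC_three ((coreI_three hu).mono fun d hd => persist hG D _ _ hd h2 (h3 d))

lemma sigma_one {ξ : Clk} {x : V → ℝ} {c : V × ℕ → ℝ} {σ : V → ℝ → ℝ} (hG : Good ξ)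
    (hx : ∀ v, x v = 1 ∨ x v = -1) (hc : ∀ i, c i = 1 ∨ c i = -1) (hR : Rec ξ x c σ)
    {k : ℝ} (hk : 0 ≤ k) {v : V} (hv : v ∈ CoreI (sgn true (cfgI rC k (mk ξ x c)))) {t : ℝ}
    (ht : k ≤ t) : σ v t = 1 := by
  have key : ∀ s, k ≤ s → (∀ n, s ≠ tm (ξ v) n) → σ v s = 1 := by
    intro s hs hn
    obtain ⟨D, hD⟩ := hG.2.2.2.2 v s
    rw [sigma_eq hG hx hc hR D v s hD (hk.trans hs) hn,
      persist (w := mk ξ x c) hG D v s hv hs hD]
    rfl
  by_cases hn : ∀ n, t ≠ tm (ξ v) n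
  · exact key t ht hn
  · push Not at hn
    obtain ⟨n, rfl⟩ := hn
    have hm := tm_strictMono (hG.1 v)
    have h1 : tm (ξ v) n < tm (ξ v) (n + 1) := hm (Nat.lt_succ_self n)
    obtain ⟨s, hs1, hs2⟩ := exists_between h1
    rw [(hR v).2 n _ le_rfl h1, ← (hR v).2 n s hs1.le hs2]
    refine key s (ht.trans hs1.le) fun m hm' => ?_
    rw [hm'] at hs1 hs2
    have a1 := hm.lt_iff_lt.1 hs1
    have a2 := hm.lt_iff_lt.1 hs2
    omega

lemma ae_pm {Ω : Type} [MeasurableSpace Ω] {P : Measure Ω} [IsProbabilityMeasure P] {Y : Ω → ℝ}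
    (mY : Measurable Y) (h : P {ω | Y ω = 1} + P {ω | Y ω = -1} = 1) :
    ∀ᵐ ω ∂P, Y ω = 1 ∨ Y ω = -1 := by
  have m1 : MeasurableSet {ω | Y ω = 1} := mY (measurableSet_singleton 1)
  have m2 : MeasurableSet {ω | Y ω = -1} := mY (measurableSet_singleton (-1))
  have hd : Disjoint {ω | Y ω = 1} {ω | Y ω = -1} := Set.disjoint_left.2 fun ω a b => by
    simp only [mem_ofPred_eq] at a b
    rw [a] at b; norm_num at b
  rw [← measure_union hd m2] at h
  exact (prob_compl_eq_zero_iff (m1.union m2)).2 h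

theorem bridge : BridgeStmt := by
  intro hG hL p h0 h1 hε Ω _ P _ X T σ mX iX hS hC hM hT hσ
  obtain ⟨mR, mr, eL⟩ := hL p h0 h1 Ω P X mX iX (fun v => (hS v).1) hC (fun v n => (hM v n).1)
  have a1 : ∀ᵐ ω ∂P, Good (readOm X ω).1.1 := by
    have b1 : ∀ᵐ w ∂(PP p).map redOm, Good w.1.1 := by
      have q1 : MeasurePreserving (fun w : Om => w.1.1) ((PP p).map redOm) muC := by
        refine ⟨by fun_prop, ?_⟩
        rw [Measure.map_map (by fun_prop) mr]
        exact (measurePreserving_fst.comp measurePreserving_fst :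
          MeasurePreserving (fun ω : Om => ω.1.1) (PP p) muC).map_eq
      exact q1.quasiMeasurePreserving.ae hG
    rw [← eL] at b1
    exact ae_of_ae_map mR.aemeasurable b1
  have a2 : ∀ᵐ ω ∂P, ∀ v, X (Sum.inl v) ω = 1 ∨ X (Sum.inl v) ω = -1 :=
    ae_all_iff.2 fun v => ae_pm (mX _) (by
      rw [(hS v).1, (hS v).2, ← ENNReal.ofReal_add h0 (by linarith)]; simp)
  have a3 : ∀ᵐ ω ∂P, ∀ i : V × ℕ,
      X (Sum.inr (Sum.inr i)) ω = 1 ∨ X (Sum.inr (Sum.inr i)) ω = -1 :=
    ae_all_iff.2 fun i => ae_pm (mX _) (by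
      rw [(hM i.1 i.2).1, (hM i.1 i.2).2, ENNReal.add_halves])
  have law' : ∀ (k : ℝ) (E : Set Cfg), MeasurableSet E →
      P {ω | cfgI rC k (readOm X ω) ∈ E} = lawI rC p k E := by
    intro k E mE
    have m1 : MeasurableSet {w : Om | cfgI rC k w ∈ E} := measurable_cfgI rC k mE
    calc P {ω | cfgI rC k (readOm X ω) ∈ E}
        = P.map (readOm X) {w : Om | cfgI rC k w ∈ E} := (Measure.map_apply mR m1).symm
      _ = PP p (redOm ⁻¹' {w : Om | cfgI rC k w ∈ E}) := by rw [eL, Measure.map_apply mr m1]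
      _ = lawI rC p k E := by
        rw [lawI_apply rC p k mE]
        congr 1
        ext w
        simp only [mem_preimage, mem_ofPred_eq, cfgI_red]
  refine ae_all_iff.2 fun v => ?_
  rw [ae_iff]
  refine le_antisymm (ENNReal.le_of_forall_pos_le_add fun ε hε0 _ => ?_) (zero_le)
  rw [zero_add]
  obtain ⟨k, hk⟩ := hε ε (by exact_mod_cast hε0)
  have mE : ∀ (u : V) (R : ℕ), MeasurableSet {x : Cfg | u ∉ Core (sgn true x) R} := fun u R =>
    (loc_core (loc_sgn true) R u).not.measurableSet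
  have b1 : ∀ R : ℕ, P {ω | cfgI rC k (readOm X ω) ∈ {x : Cfg | v ∉ Core (sgn true x) R}} ≤ ε := by
    intro R
    rw [law' k _ (mE v R)]
    have e1 : {x : Cfg | v ∉ Core (sgn true x) R} =
        sh v ⁻¹' {x : Cfg | 1 ∉ Core (sgn true x) R} := by
      ext x
      simp only [mem_ofPred_eq, mem_preimage]
      rw [core_equiv (mem_sgn_sh true v x), mul_one]
    rw [e1, (inv_lawI rC p k v).measure_preimage (mE 1 R).nullMeasurableSet,
      ← ofReal_measureReal (measure_ne_top _ _), ← ENNReal.ofReal_coe_nnreal]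
    exact ENNReal.ofReal_le_ofReal (hk R)
  have b2 : P (⋃ R : ℕ, {ω | cfgI rC k (readOm X ω) ∈ {x : Cfg | v ∉ Core (sgn true x) R}}) ≤ ε := by
    rw [Monotone.measure_iUnion]
    · exact iSup_le b1
    · intro R R' hR ω hω hc
      exact hω (core_anti _ hR hc)
  refine le_trans (measure_mono_ae ?_) b2
  filter_upwards [a1, a2, a3, hσ] with ω c1 c2 c3 c4 hn
  by_contra hc
  apply hn
  refine ⟨k, fun t ht => ?_⟩
  have hR : Rec (readOm X ω).1.1 (fun v => X (Sum.inl v) ω)
      (fun i => X (Sum.inr (Sum.inr i)) ω) (fun v t => σ v t ω) := by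
    have eT : ∀ v n, T v n ω = tm ((readOm X ω).1.1 v) n := fun v n => hT v n ω
    intro u
    have := c4 u
    simp only [eT] at this
    exact this
  refine sigma_one c1 c2 c3 hR (Nat.cast_nonneg k) (fun R => ?_) ht
  by_contra hv
  exact hc (mem_iUnion.2 ⟨R, hv⟩)

end Pool.Agent.MP_887f27_pr.H91
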