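import Pool.Agent.MP_887f27_pr.H69.Proc

/-! Law of the sample read from the variables of the problem. -/

namespace Pool.Agent.MP_887f27_pr.H91

open MeasureTheory ProbabilityTheory Set Filter
open scoped ENNReal
open Pool.Agent.MP_887f27_pr.H69

lemma measurable_dec : Measurable fun x : ℝ => decide (x = 1) := by
  refine measurable_to_bool ?_
  have : (fun x : ℝ => decide (x = 1)) ⁻¹' {true} = {1} := by ext x; simp
  rw [this]; exact measurableSet_singleton _

lemma bool_ext {μ ν : Measure Bool} [IsProbabilityMeasure μ] [IsProbabilityMeasure ν]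
    (h : μ {true} = ν {true}) : μ = ν := by
  apply Measure.ext_of_singleton
  intro x
  cases x
  · have e : ({false} : Set Bool) = {true}ᶜ := by ext x; cases x <;> simp
    rw [e, prob_compl_eq_one_sub (measurableSet_singleton _),
      prob_compl_eq_one_sub (measurableSet_singleton _), h]
  · exact h

lemma map_dec (μ : Measure ℝ) [IsProbabilityMeasure μ] {p : ℝ} (h0 : 0 ≤ p) (h1 : p ≤ 1)
    (h : μ {1} = ENNReal.ofReal p) : μ.map (fun x : ℝ => decide (x = 1)) = ber p := by
  have := Measure.isProbabilityMeasure_map (μ := μ) measurable_dec.aemeasurable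
  apply bool_ext
  rw [Measure.map_apply measurable_dec (measurableSet_singleton _), ber_true h0 h1, ← h]
  congr 1
  ext x; simp

lemma law_exp (μ : Measure ℝ) [IsProbabilityMeasure μ]
    (h : ∀ t : ℝ, 0 ≤ t → μ (Ioi t) = ENNReal.ofReal (Real.exp (-t))) : μ = ex1 := by
  have key : ∀ t : ℝ, 0 ≤ t → μ (Iic t) = ENNReal.ofReal (1 - Real.exp (-t)) := by
    intro t ht
    rw [← compl_Ioi, prob_compl_eq_one_sub measurableSet_Ioi, h t ht,
      ENNReal.ofReal_sub _ (Real.exp_pos _).le, ENNReal.ofReal_one]
  refine Measure.ext_of_Iic _ _ fun a => ?_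
  have hp : IsProbabilityMeasure (expMeasure 1) := isProbabilityMeasure_expMeasure one_pos
  have e : ex1 (Iic a) = ENNReal.ofReal (cdf (expMeasure 1) a) := by
    rw [ofReal_cdf]; rfl
  rw [e, cdf_expMeasure_eq one_pos]
  split_ifs with ha
  · rw [key a ha, one_mul]
  · rw [ENNReal.ofReal_zero]
    have h0 := key 0 le_rfl
    simp only [neg_zero, Real.exp_zero, sub_self, ENNReal.ofReal_zero] at h0
    exact measure_mono_null (Iic_subset_Iic.2 (not_le.1 ha).le) h0

lemma unif_snd : (uniformOn (univ : Set Dir)).map (fun d : Dir => d.2) = ber (1 / 2) := by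
  have := Measure.isProbabilityMeasure_map (μ := uniformOn (univ : Set Dir))
    (f := fun d : Dir => d.2) (measurable_of_countable _).aemeasurable
  apply bool_ext
  rw [Measure.map_apply (measurable_of_countable _) (measurableSet_singleton _), ber_half,
    uniformOn_univ]
  have e : (fun d : Dir => d.2) ⁻¹' {true} = ((({(0, true), (1, true)} : Finset Dir)) : Set Dir) := by
    ext ⟨a, b⟩
    fin_cases a <;> cases b <;> simp
  rw [e, Measure.count_apply_finset]
  have e2 : ({(0, true), (1, true)} : Finset Dir).card = 2 := by decide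
  have e3 : Fintype.card Dir = 4 := by decide
  rw [e2, e3]
  have : (4 : ℝ≥0∞) = 2 * 2 := by norm_num
  push_cast
  rw [this, ENNReal.div_eq_inv_mul, ENNReal.mul_inv (by simp) (by simp), mul_assoc,
    ENNReal.inv_mul_cancel (by simp) (by simp)]
  simp

/-- Index set of the variables. -/
abbrev Idx := V ⊕ (V × ℕ) ⊕ (V × ℕ)

/-- Clocks read from a vector. -/
def fC (a : Idx → ℝ) : Clk := fun v n => a (Sum.inr (Sum.inl (v, n)))
/-- Marks read from a vector. -/
noncomputable def fM (a : Idx → ℝ) : Mrk := fun i => (0, decide (a (Sum.inr (Sum.inr i)) = 1))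
/-- Spins read from a vector. -/
noncomputable def fS (a : Idx → ℝ) : Cfg := fun v => decide (a (Sum.inl v) = 1)

lemma measurable_fC : Measurable fC := by unfold fC; fun_prop

lemma measurable_fM : Measurable fM :=
  measurable_pi_lambda _ fun _ =>
    measurable_const.prodMk (measurable_dec.comp (measurable_pi_apply _))

lemma measurable_fS : Measurable fS :=
  measurable_pi_lambda _ fun _ => measurable_dec.comp (measurable_pi_apply _)

/-- Reduction of the marks. -/
def redM (m : Mrk) : Mrk := fun i => (0, (m i).2)

lemma measurable_redM : Measurable redM := by unfold redM; fun_prop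

lemma measurable_redOm : Measurable redOm := by
  have : redOm = Prod.map (Prod.map id redM) id := rfl
  rw [this]
  exact (measurable_id.prodMap measurable_redM).prodMap measurable_id

theorem law : LawStmt := by
  intro p h0 h1 Ω _ P _ X mX iX hS hC hM
  have mY : Measurable fun ω i => X i ω := measurable_pi_lambda _ mX
  have eR : readOm X = (fun a => ((fC a, fM a), fS a)) ∘ fun ω i => X i ω := rfl
  have mF : Measurable fun a : Idx → ℝ => ((fC a, fM a), fS a) :=
    (measurable_fC.prodMk measurable_fM).prodMk measurable_fS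
  refine ⟨by rw [eR]; exact mF.comp mY, measurable_redOm, ?_⟩
  have hp : ∀ i, IsProbabilityMeasure (P.map (X i)) := fun i =>
    Measure.isProbabilityMeasure_map (mX i).aemeasurable
  rw [eR, ← Measure.map_map mF mY, (iIndepFun_iff_map_fun_eq_infinitePi_map mX).1 iX]
  set ν : Idx → Measure ℝ := fun i => P.map (X i) with hν
  rw [map_prod_of_dep ν (range Sum.inr) (f := fun a => (fC a, fM a)) (k := fS)
    (measurable_fC.prodMk measurable_fM) measurable_fS
    (fun a b h => by
      refine Prod.ext ?_ ?_
      · funext v n; exact h _ ⟨_, rfl⟩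
      · funext i; simp only [fM]; rw [h _ ⟨_, rfl⟩])
    (fun a b h => by
      funext v; simp only [fS]; rw [h _ (by simp)]),
    map_prod_of_dep ν (range (fun i => Sum.inr (Sum.inl i))) (f := fC) (k := fM)
    measurable_fC measurable_fM
    (fun a b h => by funext v n; exact h _ ⟨_, rfl⟩)
    (fun a b h => by funext i; simp only [fM]; rw [h _ (by simp)])]
  have e1 : (Measure.infinitePi ν).map fC = muC := by
    have : fC = (MeasurableEquiv.curry V ℕ ℝ) ∘
        fun (a : Idx → ℝ) (i : V × ℕ) => a (Sum.inr (Sum.inl i)) := rfl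
    rw [this, ← Measure.map_map (MeasurableEquiv.measurable _) (by fun_prop),
      Measure.map_infinitePi_infinitePi_of_inj (P := ν)
        (f := fun i : V × ℕ => (Sum.inr (Sum.inl i) : Idx))
        (fun a b h => by simpa using h)]
    have e : (fun i : V × ℕ => ν (Sum.inr (Sum.inl i))) =
        fun i : V × ℕ => (fun (_ : V) (_ : ℕ) => ex1) i.1 i.2 := by
      funext i
      refine law_exp _ fun t ht => ?_
      rw [hν]
      simp only
      rw [Measure.map_apply (mX _) measurableSet_Ioi]
      exact hC i.1 i.2 t ht
    simp only [e]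
    exact Measure.infinitePi_map_curry (fun (_ : V) (_ : ℕ) => ex1)
  have m0 : Measurable fun c : Bool => (((0 : Fin 2), c) : Dir) := measurable_of_countable _
  have e2 : (Measure.infinitePi ν).map fM = muM.map redM := by
    have : fM = (fun (x : V × ℕ → ℝ) i => (((0 : Fin 2), decide (x i = 1)) : Dir)) ∘
        fun (a : Idx → ℝ) (i : V × ℕ) => a (Sum.inr (Sum.inr i)) := rfl
    have m1 : Measurable fun x : ℝ => (((0 : Fin 2), decide (x = 1)) : Dir) :=
      m0.comp measurable_dec
    have m2 : Measurable fun (x : V × ℕ → ℝ) i => (((0 : Fin 2), decide (x i = 1)) : Dir) :=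
      measurable_pi_lambda _ fun i => m1.comp (measurable_pi_apply i)
    rw [this, ← Measure.map_map m2 (by fun_prop),
      Measure.map_infinitePi_infinitePi_of_inj (P := ν)
        (f := fun i : V × ℕ => (Sum.inr (Sum.inr i) : Idx))
        (fun a b h => by simpa using h),
      Measure.infinitePi_map_pi _ (f := fun _ (x : ℝ) => (((0 : Fin 2), decide (x = 1)) : Dir))
        (fun _ => m1)]
    unfold muM redM
    rw [Measure.infinitePi_map_pi _ (f := fun _ (d : Dir) => (((0 : Fin 2), d.2) : Dir))
      (fun _ => measurable_of_countable _)]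
    congr 1
    funext i
    have a1 : (ν (Sum.inr (Sum.inr i))).map (fun x : ℝ => decide (x = 1)) = ber (1 / 2) := by
      refine map_dec _ (by norm_num) (by norm_num) ?_
      rw [hν]
      simp only
      rw [Measure.map_apply (mX _) (measurableSet_singleton _)]
      have : ENNReal.ofReal (1 / 2) = 1 / 2 := by
        rw [ENNReal.ofReal_div_of_pos (by norm_num)]; simp
      rw [this]
      exact hM i.1 i.2
    have a2 : (fun x : ℝ => (((0 : Fin 2), decide (x = 1)) : Dir)) =
        (fun c : Bool => (((0 : Fin 2), c) : Dir)) ∘ fun x : ℝ => decide (x = 1) := rfl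
    have a3 : (fun d : Dir => (((0 : Fin 2), d.2) : Dir)) =
        (fun c : Bool => (((0 : Fin 2), c) : Dir)) ∘ fun d : Dir => d.2 := rfl
    rw [a2, a3, ← Measure.map_map m0 measurable_dec,
      ← Measure.map_map m0 (measurable_of_countable _), a1, unif_snd]
  have e3 : (Measure.infinitePi ν).map fS = nu p := by
    have : fS = (fun (x : V → ℝ) v => decide (x v = 1)) ∘
        fun (a : Idx → ℝ) (v : V) => a (Sum.inl v) := rfl
    have m2 : Measurable fun (x : V → ℝ) v => decide (x v = 1) :=
      measurable_pi_lambda _ fun i => measurable_dec.comp (measurable_pi_apply i)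
    rw [this, ← Measure.map_map m2 (by fun_prop),
      Measure.map_infinitePi_infinitePi_of_inj (P := ν)
        (f := fun v : V => (Sum.inl v : Idx)) Sum.inl_injective,
      Measure.infinitePi_map_pi _ (f := fun _ (x : ℝ) => decide (x = 1)) (fun _ => measurable_dec)]
    unfold nu
    congr 1
    funext v
    refine map_dec _ h0 h1 ?_
    rw [hν]
    simp only
    rw [Measure.map_apply (mX _) (measurableSet_singleton _)]
    exact hS v
  rw [e1, e2, e3]
  have : redOm = Prod.map (Prod.map id redM) id := rfl
  rw [this]
  unfold PP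
  rw [← Measure.map_prod_map _ _ (measurable_id.prodMap measurable_redM) measurable_id,
    ← Measure.map_prod_map _ _ measurable_id measurable_redM, Measure.map_id, Measure.map_id]

end Pool.Agent.MP_887f27_pr.H91
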